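import Pool.Agent.Helper76.CV.Goals

/-!
# Project CV (MP_eec6f5_gt), packet HNB
-/

set_option autoImplicit false

namespace Pool.Agent.Helper41.CV.HNB

open Pool.Agent.Helper76.CV

/-- the denominator -/
noncomputable def DD (τ : ℝ) : ℝ := (99 + Real.cosh (28 * τ)) / 100

lemma one_le_DD (τ : ℝ) : 1 ≤ DD τ := by
  have h := Real.one_le_cosh (28 * τ)
  unfold DD
  linarith

lemma le_DD (τ : ℝ) : Real.exp (28 * |τ|) / 200 ≤ DD τ := by
  have h : Real.cosh (28 * τ) = Real.cosh (28 * |τ|) := by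
    rw [← Real.cosh_abs (28 * τ), abs_mul]
    norm_num
  have h2 := Real.cosh_eq (28 * |τ|)
  have h3 := Real.exp_pos (-(28 * |τ|))
  unfold DD
  rw [h, h2]
  linarith

lemma hN_le (τ : ℝ) : hN τ ≤ 4 * Real.exp (-(7 * |τ|)) := by
  have h1 := le_DD τ
  have h0 : 0 < Real.exp (28 * |τ|) / 200 := by positivity
  have h2 : Real.log (Real.exp (28 * |τ|) / 200) ≤ Real.log (DD τ) := Real.log_le_log h0 h1
  rw [Real.log_div (Real.exp_pos _).ne' (by norm_num), Real.log_exp] at h2
  have h3 : Real.log 200 ≤ 4 * Real.log 4 := by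
    have h4 : (4 : ℝ) * Real.log 4 = Real.log (4 ^ 4) := by
      rw [Real.log_pow]
      norm_num
    rw [h4]
    exact Real.log_le_log (by norm_num) (by norm_num)
  have h5 : Real.exp (-(1 / 4 * Real.log (DD τ))) ≤ Real.exp (-(7 * |τ|) + Real.log 4) := by
    apply Real.exp_le_exp.mpr
    linarith
  rw [Real.exp_add, Real.exp_log (by norm_num)] at h5
  have h6 : hN τ = 99 / 100 * Real.exp (-(1 / 4 * Real.log (DD τ))) := rfl
  rw [h6]
  have h7 := Real.exp_pos (-(7 * |τ|))
  nlinarith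

theorem t (hA : HNA) : HNB := by
  obtain ⟨-, hA⟩ := hA
  refine ⟨fun τ => ?_, fun τ hτ => ?_⟩
  · obtain ⟨h0, h1, h2, h3⟩ := hA τ
    have h4 := hN_le τ
    have h5 := Real.exp_pos (-(7 * |τ|))
    set h := hN τ with hh
    set z := (h / (99 / 100)) ^ 4 with hz
    have hz0 : 0 ≤ z := by positivity
    have hz1 : z ≤ 1 := by
      have : h / (99 / 100) ≤ 1 := by
        rw [div_le_one (by norm_num)]
        exact h1
      exact pow_le_one₀ (by positivity) this
    have hz2 : (h / (99 / 100)) ^ 8 = z ^ 2 := by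
      rw [hz, ← pow_mul]
    rw [hz2] at h3
    refine ⟨?_, ?_, ?_⟩
    · rw [← hh, abs_of_pos h0]
      linarith
    · have h6 : (deriv hN τ / 2) ^ 2 ≤ (7 / 2 * h) ^ 2 := by
        rw [h2]
        have h7 : (1 - z) * (1 - 98 / 100 * z) ≤ 1 := by nlinarith
        have h8 : 0 ≤ h ^ 2 := by positivity
        calc 49 / 4 * h ^ 2 * (1 - z) * (1 - 98 / 100 * z) = 49 / 4 * h ^ 2 * ((1 - z) * (1 - 98 / 100 * z)) := by
              ring
          _ ≤ 49 / 4 * h ^ 2 * 1 := by
              apply mul_le_mul_of_nonneg_left h7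
              positivity
          _ = (7 / 2 * h) ^ 2 := by ring
      have h7 := abs_le_of_sq_le_sq h6 (by positivity)
      rw [abs_le] at h7
      rw [abs_le]
      constructor <;> linarith [h7.1, h7.2]
    · have h6 : |245 / 10 - 14553 / 100 * z + 12005 / 100 * z ^ 2| ≤ 245 / 10 := by
        rw [abs_le]
        constructor <;> nlinarith [sq_nonneg (z - 14553 / 24010)]
      have h7 : |deriv (deriv hN) τ / 2| ≤ h * (245 / 10) := by
        rw [h3, abs_mul, abs_of_pos h0]
        exact mul_le_mul_of_nonneg_left h6 h0.le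
      rw [abs_div, abs_of_pos (by norm_num : (0 : ℝ) < 2)] at h7
      linarith
  · have h1 : |28 * τ| ≤ 1 := by
      rw [abs_mul, abs_of_pos (by norm_num : (0 : ℝ) < 28)]
      linarith
    have h2 : Real.cosh (28 * τ) ≤ 3 := by
      have h3 := Real.cosh_eq (28 * τ)
      have h4 : Real.exp (28 * τ) ≤ Real.exp 1 := Real.exp_le_exp.mpr (abs_le.mp h1).2
      have h5 : Real.exp (-(28 * τ)) ≤ Real.exp 1 := Real.exp_le_exp.mpr (by linarith [(abs_le.mp h1).1])
      have h6 := Real.exp_one_lt_d9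
      linarith
    have h3 : DD τ ≤ 102 / 100 := by
      unfold DD
      linarith
    have h4 : Real.log (DD τ) ≤ DD τ - 1 := Real.log_le_sub_one_of_pos (by linarith [one_le_DD τ])
    have h5 := Real.add_one_le_exp (-(1 / 4 * Real.log (DD τ)))
    have h6 : hN τ = 99 / 100 * Real.exp (-(1 / 4 * Real.log (DD τ))) := rfl
    rw [h6]
    linarith

end Pool.Agent.Helper41.CV.HNB
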